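import Mathlib

/-!
Elements of the Jacobson radical act nilpotently on finite dimensional invariant subspaces.
-/

namespace Pool.Agent.Hhelper64.GA

open Polynomial

section Ring

variable {R : Type*} [Ring R]

lemma left_inv_of_mem {a : R} (ha : a ∈ Ideal.jacobson (⊥ : Ideal R)) (b : R) :
    ∃ u : R, u * (1 - b * a) = 1 := by
  rw [Ideal.mem_jacobson_iff] at ha
  obtain ⟨z, hz⟩ := ha (-b)
  refine ⟨z, ?_⟩
  have h1 : z * -b * a + z - 1 = 0 := by simpa using hz
  have h2 : z * (1 - b * a) = z * -b * a + z := by noncomm_ring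
  rw [h2]
  exact sub_eq_zero.mp h1

lemma mul_right_mem {a : R} (ha : a ∈ Ideal.jacobson (⊥ : Ideal R)) (b : R) :
    a * b ∈ Ideal.jacobson (⊥ : Ideal R) :=
  Ideal.mul_mem_right b _ ha

lemma mul_left_mem {a : R} (ha : a ∈ Ideal.jacobson (⊥ : Ideal R)) (b : R) :
    b * a ∈ Ideal.jacobson (⊥ : Ideal R) :=
  Ideal.mul_mem_left _ b ha

end Ring

section Algebra

variable {K : Type*} [Field K] {R : Type*} [Ring R] [Algebra K R]
  {V : Type*} [AddCommGroup V] [Module K V]

lemma eq_zero_of_fixed (Φ : R →ₐ[K] Module.End K V) {y : R}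
    (hy : y ∈ Ideal.jacobson (⊥ : Ideal R)) {v : V} (hv : Φ y v = v) : v = 0 := by
  obtain ⟨u, hu⟩ := left_inv_of_mem hy 1
  have h1 : Φ (u * (1 - 1 * y)) v = v := by rw [hu]; simp
  rw [map_mul] at h1
  simp [hv] at h1
  exact h1.symm

lemma injective_of_coeff_zero (Φ : R →ₐ[K] Module.End K V) {y : R}
    (hy : y ∈ Ideal.jacobson (⊥ : Ideal R)) (q : K[X]) (hq : q.coeff 0 ≠ 0) :
    Function.Injective (Φ (aeval y q)) := by
  obtain ⟨r, hr⟩ : ∃ r : K[X], q = r * X + C (q.coeff 0) := ⟨divX q, (divX_mul_X_add q).symm⟩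
  set c := q.coeff 0 with hc
  obtain ⟨u, hu⟩ := left_inv_of_mem hy (-(c⁻¹ • aeval y r))
  have h1 : aeval y q = c • (1 - (-(c⁻¹ • aeval y r)) * y) := by
    conv_lhs => rw [hr]
    rw [map_add, map_mul, aeval_X, aeval_C, Algebra.algebraMap_eq_smul_one]
    rw [neg_mul, sub_neg_eq_add, smul_add, smul_mul_assoc, smul_smul, mul_inv_cancel₀ hq, one_smul,
      add_comm]
  have h2 : (c⁻¹ • u) * aeval y q = 1 := by
    rw [h1, smul_mul_assoc, mul_smul_comm, hu, smul_smul, inv_mul_cancel₀ hq, one_smul]
  have h3 : Function.LeftInverse (Φ (c⁻¹ • u)) (Φ (aeval y q)) := by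
    intro v
    have h4 : Φ ((c⁻¹ • u) * aeval y q) v = v := by rw [h2]; simp
    rwa [map_mul] at h4
  exact h3.injective

variable {ι : Type*} [Fintype ι] [DecidableEq ι]

lemma aeval_comb (Φ : R →ₐ[K] Module.End K V) {y : R} (v : ι → V) (E : Matrix ι ι K)
    (hE : ∀ j, Φ y (v j) = ∑ i, E i j • v i) (q : K[X]) (c : ι → K) :
    Φ (aeval y q) (Fintype.linearCombination K v c) =
      Fintype.linearCombination K v ((aeval E q).mulVec c) := by
  have h1 : ∀ c : ι → K, Φ y (Fintype.linearCombination K v c) =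
      Fintype.linearCombination K v (E.mulVec c) := by
    intro c
    simp only [Fintype.linearCombination_apply, map_sum, map_smul, hE, Matrix.mulVec, dotProduct,
      Finset.smul_sum, Finset.sum_smul, smul_smul]
    rw [Finset.sum_comm]
    refine Finset.sum_congr rfl fun i _ => Finset.sum_congr rfl fun j _ => ?_
    rw [mul_comm]
  induction q using Polynomial.induction_on' generalizing c with
  | add p q hp hq =>
    rw [map_add, map_add, LinearMap.add_apply, hp, hq, map_add, Matrix.add_mulVec, map_add]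
  | monomial n a =>
    rw [aeval_monomial, aeval_monomial, map_mul, Algebra.algebraMap_eq_smul_one, map_smul, map_one,
      map_pow, Algebra.algebraMap_eq_smul_one]
    rw [smul_mul_assoc, one_mul, smul_mul_assoc, one_mul, LinearMap.smul_apply, Matrix.smul_mulVec,
      map_smul]
    congr 1
    induction n generalizing c with
    | zero => simp
    | succ n ih =>
      rw [pow_succ, Module.End.mul_apply, h1, ih, pow_succ, Matrix.mulVec_mulVec]

theorem trace_eq_zero (Φ : R →ₐ[K] Module.End K V) {y : R}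
    (hy : y ∈ Ideal.jacobson (⊥ : Ideal R)) (v : ι → V) (hv : LinearIndependent K v)
    (E : Matrix ι ι K) (hE : ∀ j, Φ y (v j) = ∑ i, E i j • v i) : E.trace = 0 := by
  have hL : Function.Injective (Fintype.linearCombination K v) := by
    rw [← LinearMap.ker_eq_bot]
    rw [LinearMap.ker_eq_bot']
    intro c hc
    rw [Fintype.linearIndependent_iff] at hv
    funext i
    exact hv c (by simpa [Fintype.linearCombination_apply] using hc) i
  have hnil : IsNilpotent E := by
    set p := E.charpoly with hp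
    have hp0 : p ≠ 0 := (Matrix.charpoly_monic E).ne_zero
    obtain ⟨q, hq, hq0⟩ := Polynomial.exists_eq_pow_rootMultiplicity_mul_and_not_dvd p hp0 0
    set k := p.rootMultiplicity 0
    have hq1 : q.coeff 0 ≠ 0 := by
      intro h
      apply hq0
      rw [C_0, sub_zero]
      exact X_dvd_iff.mpr h
    have hinj := injective_of_coeff_zero Φ hy q hq1
    have hinj2 : Function.Injective ((aeval E q).mulVec) := by
      intro c d hcd
      apply hL
      apply hinj
      rw [aeval_comb Φ v E hE, aeval_comb Φ v E hE, hcd]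
    have hunit : IsUnit (aeval E q) := by
      rw [Matrix.mulVec_injective_iff_isUnit] at hinj2
      exact hinj2
    have h0 : aeval E p = 0 := Matrix.aeval_self_charpoly E
    rw [hq, map_mul, map_pow, C_0, sub_zero, aeval_X] at h0
    exact ⟨k, (hunit.mul_left_eq_zero).mp h0⟩
  exact (Matrix.isNilpotent_trace_of_isNilpotent hnil).eq_zero

end Algebra

end Pool.Agent.Hhelper64.GA
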