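import Mathlib
import Pool.Agent.Hhelper64.GA.Basic

/-!
The group algebra acting on functions on a G-set.
-/

namespace Pool.Agent.Hhelper64.GA

open MonoidAlgebra

variable (K : Type*) [Field K] (G : Type*) [Group G] (X : Type*) [MulAction G X]

/-- The action of a group on the functions on a G-set. -/
def funRep : G →* Module.End K (X → K) where
  toFun g :=
    { toFun := fun φ x => φ (g⁻¹ • x)
      map_add' := fun _ _ => rfl
      map_smul' := fun _ _ => rfl }
  map_one' := by
    ext φ x
    simp
  map_mul' g h := by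
    apply LinearMap.ext
    intro φ
    funext x
    simp [mul_smul]

/-- The corresponding algebra homomorphism. -/
noncomputable def funAlg : MonoidAlgebra K G →ₐ[K] Module.End K (X → K) :=
  MonoidAlgebra.lift K (Module.End K (X → K)) G (funRep K G X)

variable {K G X}

lemma funRep_apply (g : G) (φ : X → K) (x : X) : funRep K G X g φ x = φ (g⁻¹ • x) := rfl

lemma funAlg_single (g : G) (c : K) (φ : X → K) :
    funAlg K G X (single g c) φ = c • funRep K G X g φ := by
  rw [funAlg, MonoidAlgebra.lift_single]
  rfl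

lemma funAlg_apply (a : MonoidAlgebra K G) (φ : X → K) :
    funAlg K G X a φ = ∑ s ∈ a.coeff.support, a.coeff s • funRep K G X s φ := by
  rw [funAlg, MonoidAlgebra.lift_apply, Finsupp.sum, LinearMap.sum_apply]
  rfl

open Classical in
/-- The indicator function of a point. -/
noncomputable def dlt (p : X) : X → K := Pi.single p 1

lemma dlt_self (p : X) : dlt (K := K) p p = 1 := by
  simp [dlt]

lemma dlt_ne {p q : X} (h : q ≠ p) : dlt (K := K) p q = 0 := by
  simp [dlt, h]

open Classical in
lemma dlt_apply (p q : X) : dlt (K := K) p q = if q = p then 1 else 0 := by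
  by_cases h : q = p
  · subst h; simp [dlt_self]
  · simp [dlt_ne h, h]

lemma funRep_dlt (g : G) (p : X) : funRep K G X g (dlt p) = dlt (g • p) := by
  funext x
  rw [funRep_apply]
  by_cases h : x = g • p
  · subst h
    rw [inv_smul_smul, dlt_self, dlt_self]
  · rw [dlt_ne h, dlt_ne]
    intro h2
    apply h
    rw [← h2, smul_inv_smul]

lemma funAlg_dlt (a : MonoidAlgebra K G) (p : X) :
    funAlg K G X a (dlt p) = ∑ s ∈ a.coeff.support, a.coeff s • dlt (s • p) := by
  rw [funAlg_apply]
  refine Finset.sum_congr rfl fun s _ => ?_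
  rw [funRep_dlt]

/-- Normalisation: if the Jacobson radical is nonzero it contains an element with nonzero
coefficient at the identity. -/
lemma exists_coeff_one_ne_zero
    (h : Ideal.jacobson (⊥ : Ideal (MonoidAlgebra K G)) ≠ ⊥) :
    ∃ a ∈ Ideal.jacobson (⊥ : Ideal (MonoidAlgebra K G)), a.coeff 1 ≠ 0 := by
  obtain ⟨a, ha, ha0⟩ := Submodule.exists_mem_ne_zero_of_ne_bot h
  have h1 : a.coeff ≠ 0 := by
    intro h
    exact ha0 (MonoidAlgebra.coeff_eq_zero.mp h)
  obtain ⟨g, hg⟩ := Finsupp.ne_iff.mp h1
  refine ⟨single g⁻¹ 1 * a, mul_left_mem ha _, ?_⟩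
  rw [MonoidAlgebra.coeff_single_mul_apply]
  simpa using hg

end Pool.Agent.Hhelper64.GA
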