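import Mathlib
import Pool.Agent.Hhelper64.GA.Perm

/-!
In characteristic zero the Jacobson radical of a group algebra contains no nonzero element
supported on a commutative subgroup.
-/

namespace Pool.Agent.Hhelper64.GA

open MonoidAlgebra

/-- Finitely generated commutative groups are residually finite. -/
lemma exists_finiteIndex_notMem (B : Type*) [CommGroup B] [Group.FG B] {b : B} (hb : b ≠ 1) :
    ∃ N : Subgroup B, N.FiniteIndex ∧ b ∉ N := by
  obtain ⟨ι, j, _, _, p, hp, e, ⟨f⟩⟩ := CommGroup.equiv_free_prod_prod_multiplicative_zmod B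
  have hfb : f b ≠ 1 := by
    intro h
    exact hb (f.injective (by rw [h, map_one]))
  have h2 : (∃ i, (f b).1 i ≠ 1) ∨ (∃ i, (f b).2 i ≠ 1) := by
    by_contra h
    push Not at h
    apply hfb
    ext i
    · exact congrArg Multiplicative.toAdd (h.1 i)
    · exact congrArg Multiplicative.toAdd (h.2 i)
  rcases h2 with ⟨i, hi⟩ | ⟨i, hi⟩
  · set k : ℤ := Multiplicative.toAdd ((f b).1 i) with hk
    have hk0 : k ≠ 0 := by
      intro h
      apply hi
      exact h
    let m : ℕ := k.natAbs + 1
    have hm : NeZero m := ⟨by omega⟩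
    let φ : B →* Multiplicative (ZMod m) :=
      (AddMonoidHom.toMultiplicative (Int.castAddHom (ZMod m))).comp
        ((Pi.evalMonoidHom _ i).comp ((MonoidHom.fst _ _).comp f.toMonoidHom))
    have hφ : φ b = Multiplicative.ofAdd ((k : ℤ) : ZMod m) := rfl
    have hfin : Finite (Multiplicative (ZMod m)) :=
      inferInstanceAs (Finite (ZMod m))
    refine ⟨φ.ker, Subgroup.finiteIndex_ker φ, ?_⟩
    rw [MonoidHom.mem_ker, hφ]
    intro h
    have h3 : ((k : ℤ) : ZMod m) = 0 := h
    rw [ZMod.intCast_zmod_eq_zero_iff_dvd] at h3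
    have h4 := Int.natAbs_dvd_natAbs.mpr h3
    rw [Int.natAbs_natCast] at h4
    have h5 := Nat.le_of_dvd (Int.natAbs_pos.mpr hk0) h4
    omega
  · let φ : B →* Multiplicative (ZMod (p i ^ e i)) :=
      ((Pi.evalMonoidHom _ i).comp ((MonoidHom.snd _ _).comp f.toMonoidHom))
    have hφ : φ b = (f b).2 i := rfl
    have hm : NeZero (p i ^ e i) := ⟨pow_ne_zero _ (hp i).ne_zero⟩
    have hfin : Finite (Multiplicative (ZMod (p i ^ e i))) :=
      inferInstanceAs (Finite (ZMod (p i ^ e i)))
    refine ⟨φ.ker, Subgroup.finiteIndex_ker φ, ?_⟩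
    rw [MonoidHom.mem_ker, hφ]
    exact hi

variable {K : Type*} [Field K] {G : Type*} [Group G]

open Classical in
/-- The indicator function of a class of a subgroup. -/
noncomputable def clsFun {Q : Type*} (K : Type*) [Field K] (B : Subgroup G) (f : B → Q) (q : Q) :
    G → K :=
  fun h => if ∃ hh : h ∈ B, f ⟨h, hh⟩ = q then 1 else 0

lemma funRep_clsFun {Q : Type*} [Group Q] (B : Subgroup G) (f : B →* Q) (q : Q) (s : B) :
    funRep K G G (s : G) (clsFun K B f q) = clsFun K B f (f s * q) := by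
  funext h
  rw [funRep_apply]
  simp only [clsFun]
  congr 1
  rw [eq_iff_iff]
  constructor
  · rintro ⟨hh, h1⟩
    have h2 : h ∈ B := by
      have := B.mul_mem s.2 hh
      simpa using this
    refine ⟨h2, ?_⟩
    rw [← h1, ← map_mul]
    congr 1
    ext
    simp
  · rintro ⟨hh, h1⟩
    have h2 : (s : G)⁻¹ • h ∈ B := B.mul_mem (B.inv_mem s.2) hh
    refine ⟨h2, ?_⟩
    have h3 : f ⟨h, hh⟩ = f s * f ⟨(s : G)⁻¹ • h, h2⟩ := by
      rw [← map_mul]
      congr 1
      ext
      simp
    rw [h3] at h1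
    exact mul_left_cancel h1

theorem comm_case [CharZero K] (A : Subgroup G) (hA : ∀ a ∈ A, ∀ b ∈ A, a * b = b * a)
    {z : MonoidAlgebra K G} (hz : z ∈ Ideal.jacobson (⊥ : Ideal (MonoidAlgebra K G)))
    (hsupp : ∀ s ∈ z.coeff.support, s ∈ A) : z = 0 := by
  classical
  by_contra hz0
  -- normalise
  obtain ⟨y, hy, hy1, hyA⟩ : ∃ y ∈ Ideal.jacobson (⊥ : Ideal (MonoidAlgebra K G)),
      y.coeff 1 ≠ 0 ∧ ∀ s ∈ y.coeff.support, s ∈ A := by
    have h1 : z.coeff ≠ 0 := by
      intro h
      exact hz0 (MonoidAlgebra.coeff_eq_zero.mp h)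
    obtain ⟨g, hg⟩ := Finsupp.ne_iff.mp h1
    have hgA : g ∈ A := hsupp g (by simpa using hg)
    refine ⟨single g⁻¹ 1 * z, mul_left_mem hz _, ?_, ?_⟩
    · rw [MonoidAlgebra.coeff_single_mul_apply]
      simpa using hg
    · intro s hs
      rw [Finsupp.mem_support_iff, MonoidAlgebra.coeff_single_mul_apply] at hs
      have h2 : g * s ∈ A := hsupp _ (by simpa using hs)
      have := A.mul_mem (A.inv_mem hgA) h2
      simpa using this
  set B : Subgroup G := Subgroup.closure (y.coeff.support : Set G) with hB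
  have hBA : B ≤ A := by
    rw [hB, Subgroup.closure_le]
    intro s hs
    exact hyA s hs
  have hfg : Group.FG B := Group.closure_finset_fg _
  have hcomm : ∀ a b : B, a * b = b * a := by
    intro a b
    ext
    exact hA a (hBA a.2) b (hBA b.2)
  let _ : CommGroup B := { (inferInstance : Group B) with mul_comm := hcomm }
  have hsB : ∀ s ∈ y.coeff.support, s ∈ B := fun s hs => Subgroup.subset_closure hs
  -- a finite index subgroup avoiding the support
  obtain ⟨N, hN, hNs⟩ : ∃ N : Subgroup B, N.FiniteIndex ∧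
      ∀ s : B, (s : G) ∈ y.coeff.support → s ≠ 1 → s ∉ N := by
    have hch : ∀ s : B, s ≠ 1 → ∃ N : Subgroup B, N.FiniteIndex ∧ s ∉ N :=
      fun s hs => exists_finiteIndex_notMem B hs
    choose! N hN1 hN2 using hch
    let T : Finset B := (y.coeff.support.attach.image fun s => ⟨s.1, hsB s.1 s.2⟩).erase 1
    refine ⟨⨅ s : T, N s, ?_, ?_⟩
    · have : ∀ s : T, (N s).FiniteIndex := fun s => hN1 _ (Finset.ne_of_mem_erase s.2)
      exact Subgroup.finiteIndex_iInf this
    · intro s hs hs1 hsN
      have hsT : s ∈ T := by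
        rw [Finset.mem_erase]
        refine ⟨hs1, ?_⟩
        rw [Finset.mem_image]
        exact ⟨⟨s, hs⟩, Finset.mem_attach _ _, rfl⟩
      exact hN2 s hs1 ((Subgroup.mem_iInf.mp hsN) ⟨s, hsT⟩)
  let f : B →* B ⧸ N := QuotientGroup.mk' N
  have hfin : Finite (B ⧸ N) := Subgroup.finite_quotient_of_finiteIndex
  let _ : Fintype (B ⧸ N) := Fintype.ofFinite _
  let v : B ⧸ N → (G → K) := clsFun K B f
  have hv : LinearIndependent K v := by
    rw [Fintype.linearIndependent_iff]
    intro c hc q
    obtain ⟨r, hr⟩ := QuotientGroup.mk'_surjective N q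
    have h1 := congrFun hc (r : G)
    rw [Finset.sum_apply, Finset.sum_eq_single q] at h1
    · have h2 : v q (r : G) = 1 := by
        simp only [v, clsFun]
        rw [if_pos ⟨r.2, hr⟩]
      simpa [h2] using h1
    · intro q' _ hq'
      have h2 : v q' (r : G) = 0 := by
        simp only [v, clsFun]
        rw [if_neg]
        rintro ⟨_, h3⟩
        exact hq' (h3.symm.trans hr)
      simp [h2]
    · intro h
      exact absurd (Finset.mem_univ _) h
  let E : Matrix (B ⧸ N) (B ⧸ N) K := fun q' q =>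
    ∑ s ∈ y.coeff.support.attach, if f ⟨s.1, hsB s.1 s.2⟩ * q = q' then y.coeff s else 0
  have hE : ∀ q, funAlg K G G y (v q) = ∑ q', E q' q • v q' := by
    intro q
    rw [funAlg_apply, ← Finset.sum_attach]
    simp only [E, Finset.sum_smul]
    rw [Finset.sum_comm]
    refine Finset.sum_congr rfl fun s _ => ?_
    have h1 : funRep K G G (s : G) (v q) = v (f ⟨s.1, hsB s.1 s.2⟩ * q) :=
      funRep_clsFun B f q ⟨s.1, hsB s.1 s.2⟩
    rw [h1]
    simp
  have htr := trace_eq_zero (funAlg K G G) hy v hv E hE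
  have hdiag : ∀ q, E q q = y.coeff 1 := by
    intro q
    simp only [E]
    have h1mem : (1 : G) ∈ y.coeff.support := by simpa using hy1
    rw [Finset.sum_eq_single ⟨1, h1mem⟩]
    · have : (⟨1, hsB 1 h1mem⟩ : B) = 1 := rfl
      simp [this]
    · intro s _ hs
      rw [if_neg]
      intro h2
      have h3 : f ⟨s.1, hsB s.1 s.2⟩ = 1 := by
        simpa using h2
      have h4 : (⟨s.1, hsB s.1 s.2⟩ : B) ∈ N := by
        rw [← QuotientGroup.ker_mk' N]
        exact h3
      refine hNs _ s.2 ?_ h4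
      intro h5
      apply hs
      have h6 : s.1 = 1 := congrArg Subtype.val h5
      exact Subtype.ext h6
    · intro h
      exact absurd (Finset.mem_attach _ _) h
  rw [Matrix.trace] at htr
  simp only [Matrix.diag_apply, hdiag, Finset.sum_const, Finset.card_univ, nsmul_eq_mul,
    mul_eq_zero, Nat.cast_eq_zero] at htr
  rcases htr with h | h
  · have : Nonempty (B ⧸ N) := ⟨1⟩
    exact absurd h Fintype.card_ne_zero
  · exact hy1 h

end Pool.Agent.Hhelper64.GA
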