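import Mathlib
import Pool.Agent.Hhelper64.GA.Comm

/-!
Elimination by commuting elements.
-/

namespace Pool.Agent.Hhelper64.GA

open MonoidAlgebra

variable {K : Type*} [Field K] {G : Type*} [Group G]

section Elim

variable {A : Type*} [CommGroup A] (φ : A →* G) (T T' : G → A)

open Classical in
/-- One term of the elimination sum, applied to an element of the group algebra. -/
noncomputable def elimTerm (S U : Finset G) (a : MonoidAlgebra K G) : MonoidAlgebra K G :=
  single (φ (∏ s ∈ U, T s)) ((-1) ^ (S \ U).card) * a * single (φ (∏ s ∈ S \ U, T' s)) 1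

open Classical in
/-- The elimination sum. -/
noncomputable def elimSum (S : Finset G) (a : MonoidAlgebra K G) : MonoidAlgebra K G :=
  ∑ U ∈ S.powerset, elimTerm φ T T' S U a

lemma elimSum_add (S : Finset G) (a b : MonoidAlgebra K G) :
    elimSum φ T T' S (a + b) = elimSum φ T T' S a + elimSum φ T T' S b := by
  simp only [elimSum, elimTerm, mul_add, add_mul, Finset.sum_add_distrib]

lemma elimSum_zero (S : Finset G) : elimSum φ T T' S (0 : MonoidAlgebra K G) = 0 := by
  simp [elimSum, elimTerm]

lemma elimSum_sum {ι : Type*} (S : Finset G) (W : Finset ι) (f : ι → MonoidAlgebra K G) :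
    elimSum φ T T' S (∑ i ∈ W, f i) = ∑ i ∈ W, elimSum φ T T' S (f i) := by
  classical
  induction W using Finset.induction_on with
  | empty => simp [elimSum_zero]
  | insert i W hi ih => rw [Finset.sum_insert hi, Finset.sum_insert hi, elimSum_add, ih]

open Classical in
lemma elimSum_single (S : Finset G) (s : G) (hs : s ∈ S) (c : K)
    (hT : φ (T s) * s = s * φ (T' s)) : elimSum φ T T' S (single s c) = 0 := by
  obtain ⟨S', hS', rfl⟩ : ∃ S', s ∉ S' ∧ S = insert s S' :=
    ⟨S.erase s, Finset.notMem_erase s S, (Finset.insert_erase hs).symm⟩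
  rw [elimSum, Finset.sum_powerset_insert hS', ← Finset.sum_add_distrib]
  refine Finset.sum_eq_zero fun U hU => ?_
  rw [Finset.mem_powerset] at hU
  have hsU : s ∉ U := fun h => hS' (hU h)
  have h1 : insert s S' \ U = insert s (S' \ U) := by
    rw [Finset.insert_sdiff_of_notMem _ hsU]
  have h2 : insert s S' \ insert s U = S' \ U := by
    ext x
    simp only [Finset.mem_sdiff, Finset.mem_insert, not_or]
    constructor
    · rintro ⟨h | h, h3, h4⟩
      · exact absurd h h3
      · exact ⟨h, h4⟩
    · rintro ⟨h3, h4⟩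
      refine ⟨Or.inr h3, ?_, h4⟩
      rintro rfl
      exact hS' h3
  have hs2 : s ∉ S' \ U := fun h => hS' (Finset.mem_sdiff.mp h).1
  rw [elimTerm, elimTerm, h1, h2, Finset.card_insert_of_notMem hs2, Finset.prod_insert hs2,
    Finset.prod_insert hsU]
  simp only [MonoidAlgebra.single_mul_single, map_mul]
  have h3 : φ (T s) * φ (∏ x ∈ U, T x) * s * φ (∏ x ∈ S' \ U, T' x) =
      φ (∏ x ∈ U, T x) * s * (φ (T' s) * φ (∏ x ∈ S' \ U, T' x)) := by
    have h4 : φ (T s) * φ (∏ x ∈ U, T x) = φ (∏ x ∈ U, T x) * φ (T s) := by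
      rw [← map_mul, mul_comm, map_mul]
    rw [h4, mul_assoc (φ (∏ x ∈ U, T x)) (φ (T s)) s, hT]
    group
  rw [h3, ← MonoidAlgebra.single_add]
  have h5 : (-1 : K) ^ ((S' \ U).card + 1) * c * 1 + (-1) ^ (S' \ U).card * c * 1 = 0 := by
    ring
  rw [h5, MonoidAlgebra.single_zero]

lemma elimSum_mem {a : MonoidAlgebra K G}
    (ha : a ∈ Ideal.jacobson (⊥ : Ideal (MonoidAlgebra K G))) (S : Finset G) :
    elimSum φ T T' S a ∈ Ideal.jacobson (⊥ : Ideal (MonoidAlgebra K G)) := by
  refine Submodule.sum_mem _ fun U _ => ?_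
  exact mul_right_mem (mul_left_mem ha _) _

open Classical in
/-- If every element of the support of `a` other than `1` can be eliminated by commuting
elements then `a` is not in the Jacobson radical. -/
theorem false_of_elim [CharZero K] {a : MonoidAlgebra K G}
    (ha : a ∈ Ideal.jacobson (⊥ : Ideal (MonoidAlgebra K G))) (ha1 : a.coeff 1 ≠ 0)
    (hT : ∀ s ∈ a.coeff.support.erase 1, φ (T s) * s = s * φ (T' s))
    (hsep : ∀ U ⊆ a.coeff.support.erase 1, U ≠ a.coeff.support.erase 1 →
      φ ((∏ s ∈ U, T s) * ∏ s ∈ a.coeff.support.erase 1 \ U, T' s) ≠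
        φ (∏ s ∈ a.coeff.support.erase 1, T s)) : False := by
  set S := a.coeff.support.erase 1 with hS
  have h1 : elimSum φ T T' S a = elimSum φ T T' S (single 1 (a.coeff 1)) := by
    have h2 : a = ∑ s ∈ a.coeff.support, single s (a.coeff s) := by
      conv_lhs => rw [← MonoidAlgebra.sum_coeff_single a]
      rfl
    have h1mem : (1 : G) ∈ a.coeff.support := by simpa using ha1
    conv_lhs => rw [h2]
    rw [elimSum_sum, ← Finset.add_sum_erase _ _ h1mem, Finset.sum_eq_zero, add_zero]
    intro s hs
    exact elimSum_single φ T T' S s hs _ (hT s hs)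
  have h2 := elimSum_mem φ T T' ha S
  rw [h1] at h2
  have h3 : elimSum φ T T' S (single 1 (a.coeff 1)) = 0 := by
    refine comm_case φ.range ?_ h2 ?_
    · rintro _ ⟨x, rfl⟩ _ ⟨y, rfl⟩
      rw [← map_mul, mul_comm, map_mul]
    · intro s hs
      rw [Finsupp.mem_support_iff, elimSum, MonoidAlgebra.coeff_sum, Finsupp.finsetSum_apply] at hs
      obtain ⟨U, _, hU⟩ := Finset.exists_ne_zero_of_sum_ne_zero hs
      rw [elimTerm, MonoidAlgebra.single_mul_single, MonoidAlgebra.single_mul_single,
        MonoidAlgebra.coeff_single, Finsupp.single_apply] at hU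
      by_contra hc
      apply hU
      rw [if_neg]
      rintro rfl
      apply hc
      rw [mul_one, ← map_mul]
      exact ⟨_, rfl⟩
  have h4 := congrArg (fun x => x.coeff (φ (∏ s ∈ S, T s))) h3
  simp only [elimSum, MonoidAlgebra.coeff_sum, Finsupp.finsetSum_apply, MonoidAlgebra.coeff_zero,
    Finsupp.coe_zero, Pi.zero_apply] at h4
  rw [Finset.sum_eq_single S] at h4
  · simp [elimTerm] at h4
    exact ha1 h4
  · intro U hU hUS
    rw [elimTerm, MonoidAlgebra.single_mul_single, MonoidAlgebra.single_mul_single,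
        MonoidAlgebra.coeff_single, Finsupp.single_apply, if_neg]
    rw [mul_one, ← map_mul]
    exact hsep U (Finset.mem_powerset.mp hU) hUS
  · intro h
    exact absurd (Finset.mem_powerset_self S) h

end Elim

end Pool.Agent.Hhelper64.GA
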