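import Mathlib
import Pool.Agent.Hhelper64.GA.Elim

/-!
Group algebras of micro-supported groups of homeomorphisms.
-/

namespace Pool.Agent.Hhelper64.GA

open MonoidAlgebra

variable {K : Type*} [Field K] {G : Type*} [Group G]

section SetAction

variable {X : Type*} [MulAction G X]

/-- An element that fixes everything outside `U` maps `U` into itself. -/
lemma smul_mem_of_supp {U : Set X} {g : G} (hg : ∀ x, x ∉ U → g • x = x) {x : X} (hx : x ∈ U) :
    g • x ∈ U := by
  by_contra h
  have h1 := hg _ h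
  have h2 : g • x = x := by
    exact (MulAction.injective g) h1
  rw [h2] at h
  exact h hx

lemma commute_of_disjoint [FaithfulSMul G X] {U V : Set X} (hUV : Disjoint U V) {g h : G}
    (hg : ∀ x, x ∉ U → g • x = x) (hh : ∀ x, x ∉ V → h • x = x) : g * h = h * g := by
  apply FaithfulSMul.eq_of_smul_eq_smul (α := X)
  intro x
  rw [mul_smul, mul_smul]
  by_cases hxU : x ∈ U
  · have hxV : x ∉ V := fun h => Set.disjoint_left.mp hUV hxU h
    rw [hh x hxV, hh _ (fun h => Set.disjoint_left.mp hUV (smul_mem_of_supp hg hxU) h)]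
  · rw [hg x hxU]
    by_cases hxV : x ∈ V
    · rw [hg _ (fun h => Set.disjoint_left.mp hUV h (smul_mem_of_supp hh hxV))]
    · rw [hh x hxV, hg x hxU]

open Classical in
theorem false_of_supports [CharZero K] [FaithfulSMul G X] {a : MonoidAlgebra K G}
    (ha : a ∈ Ideal.jacobson (⊥ : Ideal (MonoidAlgebra K G))) (ha1 : a.coeff 1 ≠ 0)
    (t : G → G) (U U' : G → Set X)
    (ht1 : ∀ s ∈ a.coeff.support.erase 1, t s ≠ 1)
    (hU : ∀ s ∈ a.coeff.support.erase 1, ∀ x, x ∉ U s → t s • x = x)
    (hU' : ∀ s ∈ a.coeff.support.erase 1, ∀ x, x ∉ U' s → (s⁻¹ * t s * s) • x = x)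
    (h1 : ∀ s ∈ a.coeff.support.erase 1, ∀ s' ∈ a.coeff.support.erase 1, s ≠ s' →
      Disjoint (U s) (U s'))
    (h2 : ∀ s ∈ a.coeff.support.erase 1, ∀ s' ∈ a.coeff.support.erase 1, s ≠ s' →
      Disjoint (U' s) (U' s'))
    (h3 : ∀ s ∈ a.coeff.support.erase 1, ∀ s' ∈ a.coeff.support.erase 1,
      Disjoint (U s) (U' s')) : False := by
  set S := a.coeff.support.erase 1 with hS
  -- the commutative group
  let k : Set G := {g | ∃ s ∈ S, g = t s ∨ g = s⁻¹ * t s * s}
  have hcomm : ∀ x ∈ k, ∀ y ∈ k, x * y = y * x := by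
    rintro x ⟨s, hs, hx⟩ y ⟨s', hs', hy⟩
    rcases hx with rfl | rfl <;> rcases hy with rfl | rfl
    · by_cases hss : s = s'
      · rw [hss]
      · exact commute_of_disjoint (h1 s hs s' hs' hss) (hU s hs) (hU s' hs')
    · exact commute_of_disjoint (h3 s hs s' hs') (hU s hs) (hU' s' hs')
    · exact (commute_of_disjoint (h3 s' hs' s hs) (hU s' hs') (hU' s hs)).symm
    · by_cases hss : s = s'
      · rw [hss]
      · exact commute_of_disjoint (h2 s hs s' hs' hss) (hU' s hs) (hU' s' hs')
  have hmc : IsMulCommutative (Subgroup.closure k) := Subgroup.isMulCommutative_closure hcomm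
  let _ : CommGroup (Subgroup.closure k) :=
    { (inferInstance : Group (Subgroup.closure k)) with mul_comm := hmc.is_comm.comm }
  let φ : Subgroup.closure k →* G := (Subgroup.closure k).subtype
  let T : G → Subgroup.closure k := fun s =>
    if hs : s ∈ S then ⟨t s, Subgroup.subset_closure ⟨s, hs, Or.inl rfl⟩⟩ else 1
  let T' : G → Subgroup.closure k := fun s =>
    if hs : s ∈ S then ⟨s⁻¹ * t s * s, Subgroup.subset_closure ⟨s, hs, Or.inr rfl⟩⟩ else 1
  have hTs : ∀ s ∈ S, φ (T s) = t s := by
    intro s hs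
    simp only [T, dif_pos hs]
    rfl
  have hTs' : ∀ s ∈ S, φ (T' s) = s⁻¹ * t s * s := by
    intro s hs
    simp only [T', dif_pos hs]
    rfl
  refine false_of_elim φ T T' ha ha1 ?_ ?_
  · intro s hs
    rw [hTs s hs, hTs' s hs]
    group
  · intro W hW hWS heq
    obtain ⟨s, hsS, hsW⟩ : ∃ s ∈ S, s ∉ W := by
      by_contra hc
      push Not at hc
      exact hWS (Finset.Subset.antisymm hW hc)
    obtain ⟨p, hp⟩ : ∃ p : X, t s • p ≠ p := by
      by_contra hc
      push Not at hc
      apply ht1 s hsS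
      apply FaithfulSMul.eq_of_smul_eq_smul (α := X)
      intro x
      rw [hc x, one_smul]
    have hpU : p ∈ U s := by
      by_contra hc
      exact hp (hU s hsS p hc)
    have hfix : ∀ (Z : Finset G) (F : G → Subgroup.closure k),
        (∀ j ∈ Z, φ (F j) • p = p) → φ (∏ j ∈ Z, F j) • p = p := by
      intro Z F hZ
      have : (∏ j ∈ Z, F j) ∈ (MulAction.stabilizer G p).comap φ := by
        refine Subgroup.prod_mem _ fun j hj => ?_
        rw [Subgroup.mem_comap, MulAction.mem_stabilizer_iff]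
        exact hZ j hj
      rw [Subgroup.mem_comap, MulAction.mem_stabilizer_iff] at this
      exact this
    have hL : φ ((∏ s ∈ W, T s) * ∏ s ∈ S \ W, T' s) • p = p := by
      rw [map_mul, mul_smul, hfix (S \ W), hfix W]
      · intro j hj
        have hjS := hW hj
        rw [hTs j hjS]
        apply hU j hjS
        intro hc
        have hjs : s ≠ j := by
          rintro rfl
          exact hsW hj
        exact Set.disjoint_left.mp (h1 s hsS j hjS hjs) hpU hc
      · intro j hj
        have hjS := (Finset.mem_sdiff.mp hj).1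
        rw [hTs' j hjS]
        apply hU' j hjS
        intro hc
        exact Set.disjoint_left.mp (h3 s hsS j hjS) hpU hc
    have hR : φ (∏ s ∈ S, T s) • p = t s • p := by
      rw [← Finset.mul_prod_erase _ _ hsS, map_mul, mul_smul, hfix (S.erase s), hTs s hsS]
      intro j hj
      have hjS := Finset.mem_of_mem_erase hj
      rw [hTs j hjS]
      apply hU j hjS
      intro hc
      exact Set.disjoint_left.mp (h1 s hsS j hjS (Finset.ne_of_mem_erase hj).symm) hpU hc
    rw [heq, hR] at hL
    exact hp hL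

end SetAction

section Top

variable {X : Type*} [TopologicalSpace X] [T2Space X] [MulAction G X] [ContinuousConstSMul G X]
  [FaithfulSMul G X]

omit [ContinuousConstSMul G X] in
lemma infinite_of_open (h : ∀ U : Set X, IsOpen U → U.Nonempty →
    ∃ g : G, g ≠ 1 ∧ ∀ x, x ∉ U → g • x = x) {U : Set X} (hU : IsOpen U) (hne : U.Nonempty) :
    U.Infinite := by
  intro hfin
  obtain ⟨p, hp⟩ := hne
  have hopen : IsOpen ({p} : Set X) := by
    have h1 : ({p} : Set X) = U ∩ (U \ {p})ᶜ := by
      ext x
      simp only [Set.mem_singleton_iff, Set.mem_inter_iff, Set.mem_compl_iff, Set.mem_sdiff,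
        not_and, not_not]
      constructor
      · rintro rfl
        exact ⟨hp, fun _ => rfl⟩
      · rintro ⟨h1, h2⟩
        exact h2 h1
    rw [h1]
    exact hU.inter (hfin.subset Set.sdiff_subset).isClosed.isOpen_compl
  obtain ⟨g, hg1, hg⟩ := h {p} hopen ⟨p, rfl⟩
  apply hg1
  apply FaithfulSMul.eq_of_smul_eq_smul (α := X)
  intro x
  rw [one_smul]
  by_cases hx : x = p
  · subst hx
    exact smul_mem_of_supp (U := {x}) hg rfl
  · exact hg x hx

lemma exists_points [Nonempty X] (h : ∀ U : Set X, IsOpen U → U.Nonempty →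
    ∃ g : G, g ≠ 1 ∧ ∀ x, x ∉ U → g • x = x) (T : Finset G) (h1T : (1 : G) ∉ T) :
    ∃ x : G → X, (∀ s ∈ T, s⁻¹ • x s ≠ x s) ∧ (∀ s ∈ T, ∀ s' ∈ T, s ≠ s' →
      x s ≠ x s' ∧ x s ≠ s'⁻¹ • x s' ∧ s⁻¹ • x s ≠ s'⁻¹ • x s') := by
  classical
  induction T using Finset.induction_on with
  | empty => exact ⟨fun _ => Classical.arbitrary X, by simp, by simp⟩
  | insert r T hr ih =>
    have hr1 : r ≠ 1 := by
      rintro rfl
      exact h1T (Finset.mem_insert_self _ _)
    obtain ⟨x, hx1, hx2⟩ := ih (fun hc => h1T (Finset.mem_insert_of_mem hc))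
    let M : Set X := {z | r⁻¹ • z ≠ z}
    have hMopen : IsOpen M := by
      have : IsClosed {z : X | r⁻¹ • z = z} := isClosed_eq (continuous_const_smul _) continuous_id
      exact this.isOpen_compl
    have hMne : M.Nonempty := by
      by_contra hc
      rw [Set.not_nonempty_iff_eq_empty] at hc
      apply hr1
      rw [← inv_eq_one]
      apply FaithfulSMul.eq_of_smul_eq_smul (α := X)
      intro z
      rw [one_smul]
      by_contra hz
      have : z ∈ M := hz
      rw [hc] at this
      exact this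
    have hMinf := infinite_of_open h hMopen hMne
    let F : Set X := ⋃ s ∈ T, {x s, s⁻¹ • x s, r • x s, r • s⁻¹ • x s}
    have hF : F.Finite := by
      refine Set.Finite.biUnion T.finite_toSet fun s _ => ?_
      exact Set.toFinite _
    obtain ⟨z, hzM, hzF⟩ := hMinf.exists_notMem_finite hF
    have hz : ∀ s ∈ T, z ≠ x s ∧ z ≠ s⁻¹ • x s ∧ r⁻¹ • z ≠ x s ∧ r⁻¹ • z ≠ s⁻¹ • x s := by
      intro s hs
      have hzs : z ∉ ({x s, s⁻¹ • x s, r • x s, r • s⁻¹ • x s} : Set X) := by
        intro hc
        exact hzF (Set.mem_biUnion hs hc)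
      simp only [Set.mem_insert_iff, Set.mem_singleton_iff, not_or] at hzs
      refine ⟨hzs.1, hzs.2.1, ?_, ?_⟩
      · intro hc
        apply hzs.2.2.1
        rw [← hc, smul_inv_smul]
      · intro hc
        apply hzs.2.2.2
        rw [← hc, smul_inv_smul]
    have hrs : ∀ s ∈ T, s ≠ r := by
      rintro s hs rfl
      exact hr hs
    refine ⟨Function.update x r z, ?_, ?_⟩
    · intro s hs
      rcases Finset.mem_insert.mp hs with rfl | hs
      · rw [Function.update_self]
        exact hzM
      · rw [Function.update_of_ne (hrs s hs)]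
        exact hx1 s hs
    · intro s hs s' hs' hss
      rcases Finset.mem_insert.mp hs with h1 | h1
      · rcases Finset.mem_insert.mp hs' with h2 | h2
        · exact absurd (h1.trans h2.symm) hss
        · rw [h1, Function.update_self, Function.update_of_ne (hrs s' h2)]
          exact ⟨(hz s' h2).1, (hz s' h2).2.1, (hz s' h2).2.2.2⟩
      · rcases Finset.mem_insert.mp hs' with h2 | h2
        · rw [h2, Function.update_self, Function.update_of_ne (hrs s h1)]
          exact ⟨(hz s h1).1.symm, (hz s h1).2.2.1.symm, (hz s h1).2.2.2.symm⟩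
        · rw [Function.update_of_ne (hrs s h1), Function.update_of_ne (hrs s' h2)]
          exact hx2 s h1 s' h2 hss

theorem micro [CharZero K] (h : ∀ U : Set X, IsOpen U → U.Nonempty →
    ∃ g : G, g ≠ 1 ∧ ∀ x, x ∉ U → g • x = x) :
    Ideal.jacobson (⊥ : Ideal (MonoidAlgebra K G)) = ⊥ := by
  classical
  by_contra hJ
  obtain ⟨a, ha, ha1⟩ := exists_coeff_one_ne_zero hJ
  rcases isEmpty_or_nonempty X with hX | hX
  · have hG : ∀ g : G, g = 1 := fun g =>
      FaithfulSMul.eq_of_smul_eq_smul (α := X) fun x => hX.elim x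
    have := comm_case (⊤ : Subgroup G) (fun x _ y _ => by rw [hG x, hG y]) ha
      (fun _ _ => Subgroup.mem_top _)
    rw [this] at ha1
    simp at ha1
  set S := a.coeff.support.erase 1 with hS
  obtain ⟨x, hx1, hx2⟩ := exists_points (X := X) h S (Finset.notMem_erase _ _)
  -- the points
  let P : Set X := ⋃ s ∈ S, {x s, s⁻¹ • x s}
  have hP : P.Finite := by
    refine Set.Finite.biUnion S.finite_toSet fun s _ => ?_
    exact Set.toFinite _
  have hPx : ∀ s ∈ S, x s ∈ P := fun s hs => Set.mem_biUnion hs (Or.inl rfl)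
  have hPx' : ∀ s ∈ S, s⁻¹ • x s ∈ P := fun s hs => Set.mem_biUnion hs (Or.inr rfl)
  obtain ⟨N, hN, hNd⟩ := hP.t2_separation
  let U : G → Set X := fun s => N (x s) ∩ (fun z => s⁻¹ • z) ⁻¹' N (s⁻¹ • x s)
  have hUopen : ∀ s, IsOpen (U s) := fun s =>
    (hN _).2.inter ((hN _).2.preimage (continuous_const_smul _))
  have hUne : ∀ s, (U s).Nonempty := fun s => ⟨x s, (hN _).1, (hN _).1⟩
  choose t ht1 ht using fun s => h (U s) (hUopen s) (hUne s)
  refine false_of_supports (X := X) ha ha1 t (fun s => N (x s)) (fun s => N (s⁻¹ • x s))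
    (fun s _ => ht1 s) ?_ ?_ ?_ ?_ ?_
  · intro s _ z hz
    exact ht s z fun hc => hz hc.1
  · intro s _ z hz
    rw [mul_smul, mul_smul, ht s (s • z), inv_smul_smul]
    intro hc
    apply hz
    have := hc.2
    simpa using this
  · intro s hs s' hs' hss
    exact hNd (hPx s hs) (hPx s' hs') (hx2 s hs s' hs' hss).1
  · intro s hs s' hs' hss
    exact hNd (hPx' s hs) (hPx' s' hs') (hx2 s hs s' hs' hss).2.2
  · intro s hs s' hs'
    apply hNd (hPx s hs) (hPx' s' hs')
    by_cases hss : s = s'
    · subst hss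
      exact (hx1 s hs).symm
    · exact (hx2 s hs s' hs' hss).2.1

end Top

end Pool.Agent.Hhelper64.GA
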