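import Mathlib
import Pool.Agent.Hhelper64.GA.Micro

/-!
Group algebras of groups with an extremely proximal action.
-/

namespace Pool.Agent.Hhelper64.GA

open MonoidAlgebra

variable {K : Type*} [Field K] {G : Type*} [Group G]

section Free

/-- The product of a word. -/
def wprod (S : Finset G) (g : G) (w : List S) : G := (w.map fun s => g * (s : G)).prod

/-- The coefficient of a word. -/
noncomputable def wcoef (a : MonoidAlgebra K G) (w : List a.coeff.support) : K :=
  (w.map fun s => a.coeff (s : G)).prod

lemma wprod_cons (S : Finset G) (g : G) (s : S) (w : List S) :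
    wprod S g (s :: w) = (g * (s : G)) * wprod S g w := by
  simp [wprod]

omit [Group G] in
lemma wcoef_cons (a : MonoidAlgebra K G) (s : a.coeff.support) (w : List a.coeff.support) :
    wcoef a (s :: w) = a.coeff (s : G) * wcoef a w := by
  simp [wcoef]

omit [Group G] in
lemma wcoef_ne_zero (a : MonoidAlgebra K G) (w : List a.coeff.support) : wcoef a w ≠ 0 := by
  induction w with
  | nil => simp [wcoef]
  | cons s w ih =>
    rw [wcoef_cons]
    exact mul_ne_zero (Finsupp.mem_support_iff.mp s.2) ih

theorem false_of_free {a : MonoidAlgebra K G}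
    (ha : a ∈ Ideal.jacobson (⊥ : Ideal (MonoidAlgebra K G))) (hne : a.coeff.support.Nonempty)
    (g : G) (hinj : Function.Injective (wprod a.coeff.support g)) : False := by
  classical
  set S := a.coeff.support with hS
  let m : G → K := fun h => if hh : ∃ w, wprod S g w = h then wcoef a hh.choose else 0
  have hm : ∀ w, m (wprod S g w) = wcoef a w := by
    intro w
    have hh : ∃ w', wprod S g w' = wprod S g w := ⟨w, rfl⟩
    simp only [m]
    rw [dif_pos hh]
    congr 1
    exact hinj hh.choose_spec
  have hm0 : ∀ h, (¬ ∃ w, wprod S g w = h) → m h = 0 := by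
    intro h hh
    simp only [m]
    rw [dif_neg hh]
  obtain ⟨u, hu⟩ := left_inv_of_mem ha (-(-(single g 1)))
  have hx : ∀ h, funAlg K G G (single g 1 * a) m h = ∑ s ∈ S.attach, a.coeff s * m ((g * s)⁻¹ * h) := by
    intro h
    rw [map_mul, Module.End.mul_apply, funAlg_single, one_smul, funRep_apply, funAlg_apply,
      ← Finset.sum_attach, Finset.sum_apply]
    refine Finset.sum_congr rfl fun s _ => ?_
    rw [Pi.smul_apply, funRep_apply, smul_eq_mul, smul_eq_mul, smul_eq_mul, mul_inv_rev, mul_assoc]
  have hsol : m - funAlg K G G (single g 1 * a) m = dlt 1 := by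
    funext h
    rw [Pi.sub_apply, hx]
    by_cases hh : ∃ w, wprod S g w = h
    · obtain ⟨w, rfl⟩ := hh
      cases w with
      | nil =>
        have h1 : wprod S g [] = 1 := by simp [wprod]
        rw [hm, h1, dlt_self, Finset.sum_eq_zero]
        · simp [wcoef]
        · intro s _
          rw [hm0, mul_zero]
          rintro ⟨w', hw'⟩
          have h2 : wprod S g (s :: w') = wprod S g [] := by
            rw [wprod_cons, hw', h1]
            group
          exact absurd (hinj h2) (by simp)
      | cons s w =>
        rw [hm, wcoef_cons, Finset.sum_eq_single s]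
        · have h2 : (g * (s : G))⁻¹ * wprod S g (s :: w) = wprod S g w := by
            rw [wprod_cons]
            group
          rw [h2, hm, sub_self, dlt_ne]
          intro h3
          have h4 : wprod S g (s :: w) = wprod S g [] := by
            rw [h3]
            simp [wprod]
          exact absurd (hinj h4) (by simp)
        · intro s' _ hs'
          rw [hm0, mul_zero]
          rintro ⟨w', hw'⟩
          have h2 : wprod S g (s' :: w') = wprod S g (s :: w) := by
            rw [wprod_cons, hw']
            group
          have h3 := hinj h2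
          simp only [List.cons.injEq] at h3
          exact hs' h3.1
        · intro hc
          exact absurd (Finset.mem_attach _ _) hc
    · rw [hm0 h hh, Finset.sum_eq_zero, sub_zero, dlt_ne]
      · rintro rfl
        exact hh ⟨[], by simp [wprod]⟩
      · intro s _
        rw [hm0, mul_zero]
        rintro ⟨w', hw'⟩
        apply hh
        refine ⟨s :: w', ?_⟩
        rw [wprod_cons, hw']
        group
  have hm2 : funAlg K G G u (dlt 1) = m := by
    rw [← hsol]
    have h1 : m - funAlg K G G (single g 1 * a) m = funAlg K G G (1 - (-(-(single g 1))) * a) m := by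
      rw [neg_neg, map_sub, map_one]
      rfl
    rw [h1]
    have h2 : funAlg K G G (u * (1 - (-(-(single g 1))) * a)) m = m := by
      rw [hu, map_one]
      rfl
    rwa [map_mul, Module.End.mul_apply] at h2
  obtain ⟨s0, hs0⟩ := hne
  have hmem : ∀ n : ℕ, wprod S g (List.replicate n ⟨s0, hs0⟩) ∈ u.coeff.support := by
    intro n
    by_contra hc
    have h1 := hm (List.replicate n ⟨s0, hs0⟩)
    rw [← hm2, funAlg_dlt, Finset.sum_apply, Finset.sum_eq_zero] at h1
    · exact wcoef_ne_zero a _ h1.symm
    · intro s hs
      rw [Pi.smul_apply, dlt_ne, smul_zero]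
      rintro h2
      apply hc
      rw [h2, smul_eq_mul, mul_one]
      exact hs
  have hinj2 : Function.Injective fun n : ℕ => wprod S g (List.replicate n ⟨s0, hs0⟩) := by
    intro n k hnk
    have := hinj hnk
    have h1 := congrArg List.length this
    simpa using h1
  exact Set.infinite_of_injective_forall_mem hinj2 hmem u.coeff.support.finite_toSet

variable {X : Type*} [MulAction G X]

lemma wprod_injective (S : Finset G) (g : G) (V : Set X) (hV : V.Nonempty)
    (h1 : ∀ s ∈ S, ∀ x ∈ V, (g * s) • x ∈ V)
    (h2 : ∀ s ∈ S, ∀ s' ∈ S, s ≠ s' → ∀ x ∈ V, ∀ y ∈ V, (g * s) • x ≠ (g * s') • y)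
    (hS : S.Nontrivial) : Function.Injective (wprod S g) := by
  have hmem : ∀ (w : List S), ∀ x ∈ V, wprod S g w • x ∈ V := by
    intro w
    induction w with
    | nil =>
      intro x hx
      simpa [wprod] using hx
    | cons s w ih =>
      intro x hx
      rw [wprod_cons, mul_smul]
      exact h1 s s.2 _ (ih x hx)
  have hnil : ∀ (s : S) (w : List S), wprod S g (s :: w) ≠ 1 := by
    intro s w hc
    obtain ⟨p, hp⟩ := hV
    obtain ⟨s', hs', hss⟩ := hS.exists_ne s.1
    have hy := h1 s' hs' p hp
    have h3 : wprod S g (s :: w) • ((g * s') • p) = (g * s') • p := by rw [hc, one_smul]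
    rw [wprod_cons, mul_smul] at h3
    exact h2 s s.2 s' hs' hss.symm _ (hmem w _ hy) p hp h3
  intro w
  induction w with
  | nil =>
    intro w' hw
    cases w' with
    | nil => rfl
    | cons s w' =>
      exfalso
      apply hnil s w'
      rw [← hw]
      simp [wprod]
  | cons s w ih =>
    intro w' hw
    cases w' with
    | nil =>
      exfalso
      apply hnil s w
      rw [hw]
      simp [wprod]
    | cons s' w' =>
      by_cases hss : s = s'
      · subst hss
        rw [wprod_cons, wprod_cons] at hw
        rw [ih (mul_left_cancel hw)]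
      · exfalso
        obtain ⟨p, hp⟩ := hV
        have h3 : (g * (s : G)) • (wprod S g w • p) = (g * (s' : G)) • (wprod S g w' • p) := by
          rw [← mul_smul, ← mul_smul, ← wprod_cons, ← wprod_cons, hw]
        exact h2 s s.2 s' s'.2 (fun hc => hss (Subtype.ext hc)) _ (hmem w p hp) _ (hmem w' p hp) h3

end Free

section Top

variable {X : Type*} [TopologicalSpace X] [T2Space X] [MulAction G X] [ContinuousConstSMul G X]

lemma exists_open_free [Nonempty X] (htf : ∀ s : G, s ≠ 1 → interior {x : X | s • x = x} = ∅)
    (T : Finset (G × G)) (hT : ∀ p ∈ T, p.1 ≠ p.2) :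
    ∃ W : Set X, IsOpen W ∧ W.Nonempty ∧ ∀ p ∈ T, ∀ x ∈ W, p.1 • x ≠ p.2 • x := by
  classical
  induction T using Finset.induction_on with
  | empty => exact ⟨Set.univ, isOpen_univ, Set.univ_nonempty, by simp⟩
  | insert p T hp ih =>
    obtain ⟨W, hW, hWne, hWT⟩ := ih fun q hq => hT q (Finset.mem_insert_of_mem hq)
    have hne : p.1 ≠ p.2 := hT p (Finset.mem_insert_self _ _)
    have hcl : IsClosed {x : X | p.1 • x = p.2 • x} :=
      isClosed_eq (continuous_const_smul _) (continuous_const_smul _)
    refine ⟨W ∩ {x : X | p.1 • x = p.2 • x}ᶜ, hW.inter hcl.isOpen_compl, ?_, ?_⟩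
    · by_contra hc
      rw [Set.not_nonempty_iff_eq_empty] at hc
      have h1 : W ⊆ {x : X | (p.2⁻¹ * p.1) • x = x} := by
        intro x hx
        have h2 : p.1 • x = p.2 • x := by
          by_contra h3
          have : x ∈ W ∩ {x : X | p.1 • x = p.2 • x}ᶜ := ⟨hx, h3⟩
          rw [hc] at this
          exact this
        change (p.2⁻¹ * p.1) • x = x
        rw [mul_smul, h2, inv_smul_smul]
      have h2 : W ⊆ interior {x : X | (p.2⁻¹ * p.1) • x = x} := interior_maximal h1 hW
      rw [htf] at h2
      · obtain ⟨x, hx⟩ := hWne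
        exact h2 hx
      · intro h3
        apply hne
        exact (inv_mul_eq_one.mp h3).symm
    · intro q hq x hx
      rcases Finset.mem_insert.mp hq with h1 | h1
      · subst h1
        exact hx.2
      · exact hWT q h1 x hx.1

theorem extreme [Infinite X] [FaithfulSMul G X] [CharZero K]
    (h : ∀ U V : Set X, IsOpen U → U.Nonempty → IsOpen V → V.Nonempty →
      ∃ g : G, ∀ x, x ∉ U → g • x ∈ V) :
    Ideal.jacobson (⊥ : Ideal (MonoidAlgebra K G)) = ⊥ := by
  classical
  by_cases htf : ∀ s : G, s ≠ 1 → interior {x : X | s • x = x} = ∅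
  · by_contra hJ
    obtain ⟨a, ha, ha1⟩ := exists_coeff_one_ne_zero hJ
    set S := a.coeff.support with hS
    have h1S : (1 : G) ∈ S := Finsupp.mem_support_iff.mpr ha1
    by_cases hSn : S.Nontrivial
    · obtain ⟨W, hW, ⟨x, hx⟩, hWx⟩ := exists_open_free htf S.offDiag
        (fun p hp => (Finset.mem_offDiag.mp hp).2.2)
      obtain ⟨y, hy⟩ := Infinite.exists_notMem_finset (S.image fun s => s • x)
      let P : Set X := insert y (⋃ s ∈ S, {s • x})
      have hP : P.Finite := by
        refine Set.Finite.insert _ (Set.Finite.biUnion S.finite_toSet fun s _ => ?_)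
        exact Set.toFinite _
      have hPs : ∀ s ∈ S, s • x ∈ P := fun s hs => Or.inr (Set.mem_biUnion hs rfl)
      obtain ⟨N, hN, hNd⟩ := hP.t2_separation
      let V : Set X := ⋂ s ∈ S, (fun z => s • z) ⁻¹' N (s • x)
      have hVo : IsOpen V := isOpen_biInter_finset fun s _ =>
        (hN _).2.preimage (continuous_const_smul _)
      have hxV : x ∈ V := by
        simp only [V, Set.mem_iInter]
        exact fun s _ => (hN _).1
      obtain ⟨g, hg⟩ := h (N y) V (hN y).2 ⟨y, (hN y).1⟩ hVo ⟨x, hxV⟩
      have hVs : ∀ s ∈ S, ∀ v ∈ V, s • v ∈ N (s • x) := by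
        intro s hs v hv
        simp only [V, Set.mem_iInter] at hv
        exact hv s hs
      refine false_of_free ha ⟨1, h1S⟩ g (wprod_injective S g V ⟨x, hxV⟩ ?_ ?_ hSn)
      · intro s hs v hv
        rw [mul_smul]
        apply hg
        intro hc
        have hne : y ≠ s • x := by
          rintro rfl
          exact hy (Finset.mem_image_of_mem _ hs)
        exact Set.disjoint_left.mp (hNd (Or.inl rfl) (hPs s hs) hne) hc (hVs s hs v hv)
      · intro s hs s' hs' hss v hv v' hv' hc
        rw [mul_smul, mul_smul] at hc
        have hc2 := MulAction.injective g hc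
        have hne : s • x ≠ s' • x := hWx (s, s') (Finset.mem_offDiag.mpr ⟨hs, hs', hss⟩) x hx
        have h3 := hVs s hs v hv
        rw [hc2] at h3
        exact Set.disjoint_left.mp (hNd (hPs s hs) (hPs s' hs') hne) h3 (hVs s' hs' v' hv')
    · have hS1 : S = {1} := by
        ext s
        rw [Finset.mem_singleton]
        constructor
        · intro hs
          by_contra hc
          exact hSn ⟨s, hs, 1, h1S, hc⟩
        · rintro rfl
          exact h1S
      have := comm_case (⊥ : Subgroup G) (fun x hx y hy => by
        rw [Subgroup.mem_bot.mp hx, Subgroup.mem_bot.mp hy]) ha (fun s hs => by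
          rw [← hS, hS1, Finset.mem_singleton] at hs
          rw [hs]
          exact Subgroup.one_mem _)
      rw [this] at ha1
      simp at ha1
  · push Not at htf
    obtain ⟨s0, hs0, hO⟩ := htf
    refine micro (X := X) fun U hU hUne => ?_
    obtain ⟨g, hg⟩ := h U (interior {x : X | s0 • x = x}) hU hUne isOpen_interior
      hO
    refine ⟨g⁻¹ * s0 * g, ?_, ?_⟩
    · intro hc
      apply hs0
      have h1 : s0 = g * (g⁻¹ * s0 * g) * g⁻¹ := by group
      rw [h1, hc]
      group
    · intro x hx
      have h0 : g • x ∈ {x : X | s0 • x = x} := interior_subset (hg x hx)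
      have h1 : s0 • g • x = g • x := h0
      rw [mul_smul, mul_smul, h1, inv_smul_smul]

end Top

end Pool.Agent.Hhelper64.GA
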