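import Mathlib
import Pool.Agent.Hhelper64.GA.Comm

/-!
Group algebras of groups with an oligomorphic action without algebraicity.
-/

namespace Pool.Agent.Hhelper64.GA

open MonoidAlgebra

variable {K : Type*} [Field K] {G : Type*} [Group G] {X : Type*} [MulAction G X]

section Generic

variable {n : ℕ} (x : Fin n → X)

/-- `y` is generic over `F`: `y i` is the image of `x i` under an element fixing the rest of `F`
and the earlier points of `y`. -/
def IsGen (F : Finset X) (g : Fin n → G) (y : Fin n → X) : Prop :=
  ∀ i, g i • x i = y i ∧ y i ∉ F ∧ (∀ p ∈ F, p ≠ x i → g i • p = p) ∧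
    (∀ j < i, g i • y j = y j)

lemma IsGen.mono {x : Fin n → X} {F F' : Finset X} (hF : F ⊆ F') {g : Fin n → G} {y : Fin n → X}
    (h : IsGen x F' g y) : IsGen x F g y := fun i =>
  ⟨(h i).1, fun hc => (h i).2.1 (hF hc), fun p hp => (h i).2.2.1 p (hF hp), (h i).2.2.2⟩

lemma exists_isGen (h2 : ∀ F : Finset X, ∀ z, z ∉ F →
    (MulAction.orbit (fixingSubgroup G (F : Set X)) z).Infinite)
    (F : Finset X) (hF : ∀ i, x i ∈ F) : ∃ g : Fin n → G, ∃ y, IsGen x F g y := by
  classical
  have key : ∀ k : ℕ, ∃ g : Fin n → G, ∃ y : Fin n → X, ∀ i, i.val < k →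
      g i • x i = y i ∧ y i ∉ F ∧ (∀ p ∈ F, p ≠ x i → g i • p = p) ∧
      (∀ j < i, g i • y j = y j) := by
    intro k
    induction k with
    | zero => exact ⟨fun _ => 1, x, fun i hi => absurd hi (Nat.not_lt_zero _)⟩
    | succ k ih =>
      obtain ⟨g, y, hgy⟩ := ih
      by_cases hk : k < n
      · set i0 : Fin n := ⟨k, hk⟩ with hi0
        let Fy : Finset X := F ∪ (Finset.univ.filter fun j : Fin n => j < i0).image y
        have hx : x i0 ∉ Fy.erase (x i0) := Finset.notMem_erase _ _
        obtain ⟨z, ⟨⟨u, hu⟩, rfl⟩, hzF⟩ := (h2 _ _ hx).exists_notMem_finset Fy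
        rw [mem_fixingSubgroup_iff] at hu
        have huz : ∀ p ∈ Fy, p ≠ x i0 → u • p = p := by
          intro p hp hpx
          apply hu
          rw [Finset.mem_coe, Finset.mem_erase]
          exact ⟨hpx, hp⟩
        have hz : u • x i0 ∉ Fy := hzF
        refine ⟨Function.update g i0 u, Function.update y i0 (u • x i0), ?_⟩
        intro i hi
        by_cases hii : i = i0
        · subst hii
          rw [Function.update_self, Function.update_self]
          refine ⟨rfl, fun hc => hz (Finset.mem_union_left _ hc), fun p hp hpx => ?_, ?_⟩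
          · exact huz p (Finset.mem_union_left _ hp) hpx
          · intro j hj
            rw [Function.update_of_ne hj.ne]
            apply huz
            · apply Finset.mem_union_right
              apply Finset.mem_image_of_mem
              simpa using hj
            · intro hc
              have hjk : j.val < k := hj
              exact (hgy j hjk).2.1 (hc ▸ hF _)
        · have hik : i.val < k := by
            have h1 : i.val ≠ k := fun hc => hii (Fin.ext hc)
            omega
          rw [Function.update_of_ne hii, Function.update_of_ne hii]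
          refine ⟨(hgy i hik).1, (hgy i hik).2.1, (hgy i hik).2.2.1, ?_⟩
          intro j hj
          have hj2 : j ≠ i0 := by
            rintro rfl
            have : i0.val < i.val := hj
            have h3 : i0.val = k := rfl
            omega
          rw [Function.update_of_ne hj2]
          exact (hgy i hik).2.2.2 j hj
      · refine ⟨g, y, fun i hi => hgy i ?_⟩
        have := i.2
        omega
  obtain ⟨g, y, h⟩ := key n
  exact ⟨g, y, fun i => h i i.2⟩

/-- There is a type over `x` realised generically over every finite set. -/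
lemma exists_class [Finite (MulAction.orbitRel.Quotient G (Fin (n + n) → X))]
    (h2 : ∀ F : Finset X, ∀ z, z ∉ F →
    (MulAction.orbit (fixingSubgroup G (F : Set X)) z).Infinite) :
    ∃ c : MulAction.orbitRel.Quotient G (Fin (n + n) → X), ∀ F : Finset X, (∀ i, x i ∈ F) →
      ∃ g : Fin n → G, ∃ y, IsGen x F g y ∧
        (Quotient.mk'' (Fin.append x y) : MulAction.orbitRel.Quotient G (Fin (n + n) → X)) = c := by
  classical
  by_contra hc
  push Not at hc
  choose F hF1 hF2 using hc
  let _ : Fintype (MulAction.orbitRel.Quotient G (Fin (n + n) → X)) := Fintype.ofFinite _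
  let F' : Finset X := Finset.univ.biUnion F ∪ Finset.univ.image x
  obtain ⟨g, y, hgy⟩ := exists_isGen x h2 F' fun i =>
    Finset.mem_union_right _ (Finset.mem_image_of_mem _ (Finset.mem_univ _))
  refine hF2 (Quotient.mk'' (Fin.append x y)) g y (hgy.mono ?_) rfl
  intro z hz
  apply Finset.mem_union_left
  rw [Finset.mem_biUnion]
  exact ⟨_, Finset.mem_univ _, hz⟩

lemma exists_transport {y y' : Fin n → X}
    (h : (Quotient.mk'' (Fin.append x y) : MulAction.orbitRel.Quotient G (Fin (n + n) → X)) =
      Quotient.mk'' (Fin.append x y')) : ∃ g : G, (∀ i, g • x i = x i) ∧ ∀ i, g • y' i = y i := by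
  have h1 := Quotient.exact h
  obtain ⟨g, hg⟩ := h1
  refine ⟨g, fun i => ?_, fun i => ?_⟩
  · have := congrFun hg (Fin.castAdd n i)
    simpa using this
  · have := congrFun hg (Fin.natAdd n i)
    simp only [Pi.smul_apply, Fin.append_right] at this
    exact this

end Generic

section Main

variable {n : ℕ}

open Classical in
/-- Replace `x i` by `y i` for `i` in `T`. -/
noncomputable def rho (x y : Fin n → X) (T : Finset (Fin n)) (z : X) : X :=
  if h : ∃ i ∈ T, x i = z then y h.choose else z

lemma rho_mem {x y : Fin n → X} (hx : Function.Injective x) {T : Finset (Fin n)} {i : Fin n}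
    (hi : i ∈ T) : rho x y T (x i) = y i := by
  have h : ∃ j ∈ T, x j = x i := ⟨i, hi, rfl⟩
  rw [rho, dif_pos h, hx h.choose_spec.2]

lemma rho_notMem {x y : Fin n → X} {T : Finset (Fin n)} {z : X} (hz : ∀ i ∈ T, x i ≠ z) :
    rho x y T z = z := by
  rw [rho, dif_neg]
  rintro ⟨i, hi, h⟩
  exact hz i hi h

open Classical in
/-- The alternating sum over the replacements. -/
noncomputable def altSum (K : Type*) [Field K] (x y : Fin n → X) (W : Finset (Fin n))
    (p : Fin n → X) : (Fin n → X) → K :=
  ∑ T ∈ W.powerset, (-1 : K) ^ T.card • dlt (fun j => rho x y T (p j))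

lemma altSum_eq_zero {x y : Fin n → X} (hx : Function.Injective x) {W : Finset (Fin n)}
    {p : Fin n → X} {i : Fin n}
    (hi : i ∈ W) (hp : ∀ j, p j ≠ x i) : altSum K x y W p = 0 := by
  classical
  obtain ⟨W', hW', rfl⟩ : ∃ W', i ∉ W' ∧ W = insert i W' :=
    ⟨W.erase i, Finset.notMem_erase i W, (Finset.insert_erase hi).symm⟩
  rw [altSum, Finset.sum_powerset_insert hW', ← Finset.sum_add_distrib]
  refine Finset.sum_eq_zero fun T hT => ?_
  rw [Finset.mem_powerset] at hT
  have hiT : i ∉ T := fun h => hW' (hT h)
  have h1 : ∀ j, rho x y (insert i T) (p j) = rho x y T (p j) := by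
    intro j
    by_cases h : ∃ k ∈ T, x k = p j
    · obtain ⟨k, hk, hkj⟩ := h
      rw [← hkj, rho_mem hx hk, rho_mem hx (Finset.mem_insert_of_mem hk)]
    · push Not at h
      rw [rho_notMem h, rho_notMem]
      intro k hk
      rcases Finset.mem_insert.mp hk with rfl | hk
      · exact (hp j).symm
      · exact h k hk
  simp only [h1]
  rw [Finset.card_insert_of_notMem hiT, pow_succ]
  simp

/-- The product of the operators `1 - g i`. -/
noncomputable def bOp (K : Type*) [Field K] (g : Fin n → G) : ℕ → MonoidAlgebra K G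
  | 0 => 1
  | k + 1 => (1 - single (if h : k < n then g ⟨k, h⟩ else 1) 1) * bOp K g k

lemma bOp_dlt {x y : Fin n → X} (hx : Function.Injective x) {F : Finset X} {g : Fin n → G}
    (hg : IsGen x F g y) (p : Fin n → X) (hp : ∀ j, p j ∈ F) (k : ℕ) (hk : k ≤ n) :
    funAlg K G (Fin n → X) (bOp K g k) (dlt p) =
      altSum K x y (Finset.univ.filter fun i : Fin n => i.val < k) p := by
  classical
  induction k with
  | zero =>
    rw [bOp, map_one, altSum]
    have h1 : (Finset.univ.filter fun i : Fin n => i.val < 0) = ∅ := by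
      ext i
      simp
    rw [h1, Finset.powerset_empty, Finset.sum_singleton]
    have h2 : (fun j => rho x y ∅ (p j)) = p := by
      funext j
      exact rho_notMem (by simp)
    rw [h2]
    simp
  | succ k ih =>
    have hkn : k < n := by omega
    rw [bOp, dif_pos hkn, map_mul, Module.End.mul_apply, ih (by omega)]
    set i0 : Fin n := ⟨k, hkn⟩ with hi0
    have hW : (Finset.univ.filter fun i : Fin n => i.val < k + 1) =
        insert i0 (Finset.univ.filter fun i : Fin n => i.val < k) := by
      ext i
      simp only [Finset.mem_filter, Finset.mem_univ, true_and, Finset.mem_insert]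
      constructor
      · intro h
        by_cases h2 : i.val = k
        · exact Or.inl (Fin.ext h2)
        · right
          omega
      · rintro (rfl | h)
        · simp [hi0]
        · omega
    have hi0W : i0 ∉ (Finset.univ.filter fun i : Fin n => i.val < k) := by
      simp [hi0]
    rw [hW, altSum, altSum, Finset.sum_powerset_insert hi0W, ← Finset.sum_add_distrib, map_sum]
    refine Finset.sum_congr rfl fun T hT => ?_
    rw [Finset.mem_powerset] at hT
    have hiT : i0 ∉ T := fun h => hi0W (hT h)
    have hTk : ∀ i ∈ T, i < i0 := by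
      intro i hi
      have := (Finset.mem_filter.mp (hT hi)).2
      exact this
    rw [map_smul, map_sub, map_one, LinearMap.sub_apply, funAlg_single, one_smul, funRep_dlt,
      Module.End.one_apply, smul_sub, sub_eq_add_neg, Finset.card_insert_of_notMem hiT, pow_succ]
    congr 1
    rw [mul_neg_one, neg_smul]
    congr 3
    funext j
    rw [Pi.smul_apply]
    by_cases h1 : p j = x i0
    · rw [h1, rho_mem hx (Finset.mem_insert_self _ _), rho_notMem]
      · exact (hg i0).1
      · intro i hi hc
        exact hiT (hx hc ▸ hi)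
    · by_cases h : ∃ i ∈ T, x i = p j
      · obtain ⟨i, hi, hij⟩ := h
        rw [← hij, rho_mem hx hi, rho_mem hx (Finset.mem_insert_of_mem hi)]
        exact (hg i0).2.2.2 i (hTk i hi)
      · push Not at h
        rw [rho_notMem h, rho_notMem]
        · exact (hg i0).2.2.1 _ (hp j) h1
        · intro i hi
          rcases Finset.mem_insert.mp hi with rfl | hi
          · exact fun hc => h1 hc.symm
          · exact h i hi

open Classical in
/-- The points `y i` for `i` in `T` and `x i` otherwise. -/
noncomputable def mix (x y : Fin n → X) (T : Finset (Fin n)) : Fin n → X :=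
  fun i => if i ∈ T then y i else x i

/-- The vector attached to a permutation. -/
noncomputable def vvec (K : Type*) [Field K] (x y : Fin n → X) (σ : Equiv.Perm (Fin n)) :
    (Fin n → X) → K :=
  ∑ T : Finset (Fin n), (-1 : K) ^ T.card • dlt (fun j => mix x y T (σ j))

lemma funRep_altSum {x y y' : Fin n → X} (hx : Function.Injective x) {h : G}
    (h1 : ∀ i, h • x i = x i) (h2 : ∀ i, h • y' i = y i) (σ : Equiv.Perm (Fin n)) :
    funRep K G (Fin n → X) h (altSum K x y' Finset.univ fun j => x (σ j)) = vvec K x y σ := by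
  classical
  rw [altSum, vvec, map_sum, Finset.powerset_univ]
  refine Finset.sum_congr rfl fun T _ => ?_
  rw [map_smul, funRep_dlt]
  congr 2
  funext j
  rw [Pi.smul_apply, mix]
  by_cases hj : σ j ∈ T
  · rw [if_pos hj, rho_mem hx hj, h2]
  · rw [if_neg hj, rho_notMem, h1]
    intro i hi hc
    exact hj (hx hc ▸ hi)

/-- A tuple of `n` points containing all `x i` is a permutation of `x`. -/
lemma exists_perm {x : Fin n → X} (hx : Function.Injective x) {p : Fin n → X}
    (hp : ∀ i, ∃ j, p j = x i) : ∃ σ : Equiv.Perm (Fin n), p = fun j => x (σ j) := by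
  choose τ hτ using hp
  have hτi : Function.Injective τ := by
    intro i j hij
    apply hx
    rw [← hτ i, ← hτ j, hij]
  let e : Equiv.Perm (Fin n) := Equiv.ofBijective τ (Finite.injective_iff_bijective.mp hτi)
  refine ⟨e.symm, ?_⟩
  funext j
  rw [← hτ (e.symm j)]
  congr 1
  exact (e.apply_symm_apply j).symm

open Classical in
lemma bOp_all {x y y' : Fin n → X} (hx : Function.Injective x) {F : Finset X} {g : Fin n → G}
    (hg : IsGen x F g y') {h : G} (h1 : ∀ i, h • x i = x i) (h2 : ∀ i, h • y' i = y i)
    (p : Fin n → X) (hp : ∀ j, p j ∈ F) :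
    funAlg K G (Fin n → X) (single h 1 * bOp K g n) (dlt p) =
      ∑ σ : Equiv.Perm (Fin n), (if p = (fun j => x (σ j)) then (1 : K) else 0) • vvec K x y σ := by
  rw [map_mul, Module.End.mul_apply, bOp_dlt hx hg p hp n le_rfl, funAlg_single, one_smul]
  have huniv : (Finset.univ.filter fun i : Fin n => i.val < n) = Finset.univ := by
    ext i
    simp
  rw [huniv]
  by_cases hall : ∀ i, ∃ j, p j = x i
  · obtain ⟨σ, rfl⟩ := exists_perm hx hall
    rw [funRep_altSum hx h1 h2, Finset.sum_eq_single σ]
    · simp
    · intro σ' _ hσ'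
      rw [if_neg, zero_smul]
      intro hc
      apply hσ'
      ext j
      have := congrFun hc j
      rw [hx this]
    · intro hc
      exact absurd (Finset.mem_univ _) hc
  · push Not at hall
    obtain ⟨i, hi⟩ := hall
    rw [altSum_eq_zero hx (Finset.mem_univ i) hi, map_zero, Finset.sum_eq_zero]
    intro σ _
    rw [if_neg, zero_smul]
    rintro rfl
    exact hi (σ.symm i) (by simp)

lemma mix_eq_imp {x y : Fin n → X} (hxy : ∀ i j, y i ≠ x j) {T : Finset (Fin n)}
    {σ τ : Equiv.Perm (Fin n)} (h : (fun j => mix x y T (σ j)) = fun j => x (τ j)) : T = ∅ := by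
  classical
  by_contra hT
  obtain ⟨i, hi⟩ := Finset.nonempty_iff_ne_empty.mpr hT
  have := congrFun h (σ.symm i)
  simp only [Equiv.apply_symm_apply, mix, if_pos hi] at this
  exact hxy _ _ this

lemma vvec_linearIndependent {x y : Fin n → X} (hx : Function.Injective x)
    (hxy : ∀ i j, y i ≠ x j) : LinearIndependent K (vvec K x y) := by
  classical
  rw [Fintype.linearIndependent_iff]
  intro c hc τ
  have h1 := congrFun hc (fun j => x (τ j))
  rw [Finset.sum_apply, Finset.sum_eq_single τ] at h1
  · have h2 : vvec K x y τ (fun j => x (τ j)) = 1 := by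
      rw [vvec, Finset.sum_apply, Finset.sum_eq_single ∅]
      · have : (fun j => mix x y ∅ (τ j)) = fun j => x (τ j) := by
          funext j
          simp [mix]
        rw [this, Pi.smul_apply, dlt_self]
        simp
      · intro T _ hT
        rw [Pi.smul_apply, dlt_ne, smul_zero]
        intro hc
        exact hT (mix_eq_imp hxy hc.symm)
      · intro hc
        exact absurd (Finset.mem_univ _) hc
    rw [Pi.smul_apply, h2] at h1
    simpa using h1
  · intro σ _ hσ
    have h2 : vvec K x y σ (fun j => x (τ j)) = 0 := by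
      rw [vvec, Finset.sum_apply, Finset.sum_eq_zero]
      intro T _
      rw [Pi.smul_apply, dlt_ne, smul_zero]
      intro hc
      have hT := mix_eq_imp hxy hc.symm
      subst hT
      apply hσ
      ext j
      have := congrFun hc j
      simp only [mix, Finset.notMem_empty, if_false] at this
      rw [hx this]
    rw [Pi.smul_apply, h2, smul_zero]
  · intro hc
    exact absurd (Finset.mem_univ _) hc

theorem oligo [CharZero K] [FaithfulSMul G X]
    (h1 : ∀ n : ℕ, Finite (MulAction.orbitRel.Quotient G (Fin n → X)))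
    (h2 : ∀ F : Finset X, ∀ z, z ∉ F →
      (MulAction.orbit (fixingSubgroup G (F : Set X)) z).Infinite) :
    Ideal.jacobson (⊥ : Ideal (MonoidAlgebra K G)) = ⊥ := by
  classical
  by_contra hJ
  obtain ⟨a, ha, ha1⟩ := exists_coeff_one_ne_zero hJ
  have h1S : (1 : G) ∈ a.coeff.support := Finsupp.mem_support_iff.mpr ha1
  -- points moved by the support
  have hmov : ∀ s : G, s ≠ 1 → ∃ z : X, s • z ≠ z := by
    intro s hs
    by_contra hc
    push Not at hc
    apply hs
    apply FaithfulSMul.eq_of_smul_eq_smul (α := X)
    intro z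
    rw [hc z, one_smul]
  choose q hq using hmov
  let P : Finset X := (a.coeff.support.erase 1).attach.image
    fun s => q s.1 (Finset.ne_of_mem_erase s.2)
  obtain ⟨n, x, hx, hxP, hPx⟩ : ∃ n : ℕ, ∃ x : Fin n → X, Function.Injective x ∧
      (∀ i, x i ∈ P) ∧ ∀ z ∈ P, ∃ i, x i = z := by
    refine ⟨P.card, fun i => (P.equivFin.symm i : X), ?_, fun i => (P.equivFin.symm i).2, ?_⟩
    · intro i j hij
      exact P.equivFin.symm.injective (Subtype.ext hij)
    · intro z hz
      exact ⟨P.equivFin ⟨z, hz⟩, by simp⟩
  have hdist : ∀ s ∈ a.coeff.support, s ≠ 1 → ∃ i, s • x i ≠ x i := by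
    intro s hs hs1
    obtain ⟨i, hi⟩ := hPx (q s hs1) (Finset.mem_image.mpr
      ⟨⟨s, Finset.mem_erase.mpr ⟨hs1, hs⟩⟩, Finset.mem_attach _ _, rfl⟩)
    refine ⟨i, ?_⟩
    rw [hi]
    exact hq s hs1
  have := h1 (n + n)
  obtain ⟨c, hc⟩ := exists_class (G := G) x h2
  -- the first generic tuple
  let F0 : Finset X := Finset.univ.image x ∪
    (a.coeff.support ×ˢ (Finset.univ : Finset (Fin n))).image fun p => p.1⁻¹ • x p.2
  obtain ⟨g0, y, hy, hyc⟩ := hc F0 fun i =>
    Finset.mem_union_left _ (Finset.mem_image_of_mem _ (Finset.mem_univ _))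
  have hxy : ∀ i j, y i ≠ x j := by
    intro i j hij
    apply (hy i).2.1
    rw [hij]
    exact Finset.mem_union_left _ (Finset.mem_image_of_mem _ (Finset.mem_univ _))
  have hsy : ∀ s ∈ a.coeff.support, ∀ i j, s • y i ≠ x j := by
    intro s hs i j hij
    apply (hy i).2.1
    apply Finset.mem_union_right
    rw [Finset.mem_image]
    refine ⟨(s, j), Finset.mem_product.mpr ⟨hs, Finset.mem_univ _⟩, ?_⟩
    rw [← hij, inv_smul_smul]
  -- the second generic tuple
  let F1 : Finset X := Finset.univ.image x ∪
    ((a.coeff.support ×ˢ (Finset.univ : Finset (Fin n))).image fun p => p.1 • x p.2) ∪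
    ((a.coeff.support ×ˢ (Finset.univ : Finset (Fin n))).image fun p => p.1 • y p.2)
  obtain ⟨g, y', hg, hgc⟩ := hc F1 fun i => by
    apply Finset.mem_union_left
    exact Finset.mem_union_left _ (Finset.mem_image_of_mem _ (Finset.mem_univ _))
  obtain ⟨h, hh1, hh2⟩ := exists_transport x (hyc.trans hgc.symm)
  let b : MonoidAlgebra K G := single h 1 * bOp K g n
  have hF1 : ∀ s ∈ a.coeff.support, ∀ (T : Finset (Fin n)) (i : Fin n), s • mix x y T i ∈ F1 := by
    intro s hs T i
    rw [mix]
    by_cases hi : i ∈ T
    · rw [if_pos hi]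
      apply Finset.mem_union_right
      rw [Finset.mem_image]
      exact ⟨(s, i), Finset.mem_product.mpr ⟨hs, Finset.mem_univ _⟩, rfl⟩
    · rw [if_neg hi]
      apply Finset.mem_union_left
      apply Finset.mem_union_right
      rw [Finset.mem_image]
      exact ⟨(s, i), Finset.mem_product.mpr ⟨hs, Finset.mem_univ _⟩, rfl⟩
  let E : Matrix (Equiv.Perm (Fin n)) (Equiv.Perm (Fin n)) K := fun σ τ =>
    ∑ T : Finset (Fin n), ∑ s ∈ a.coeff.support, (-1 : K) ^ T.card * (a.coeff s *
      (if (s • fun j => mix x y T (τ j)) = (fun j => x (σ j)) then 1 else 0))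
  have hE : ∀ τ, funAlg K G (Fin n → X) (b * a) (vvec K x y τ) = ∑ σ, E σ τ • vvec K x y σ := by
    intro τ
    rw [map_mul, Module.End.mul_apply]
    have hav : funAlg K G (Fin n → X) a (vvec K x y τ) = ∑ T : Finset (Fin n),
        ∑ s ∈ a.coeff.support, (-1 : K) ^ T.card • a.coeff s •
          dlt (s • fun j => mix x y T (τ j)) := by
      rw [vvec, map_sum]
      refine Finset.sum_congr rfl fun T _ => ?_
      rw [map_smul, funAlg_dlt, Finset.smul_sum]
    have hR : ∑ σ, E σ τ • vvec K x y σ = ∑ T : Finset (Fin n), ∑ s ∈ a.coeff.support,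
        ∑ σ : Equiv.Perm (Fin n), ((-1 : K) ^ T.card * (a.coeff s *
          (if (s • fun j => mix x y T (τ j)) = (fun j => x (σ j)) then 1 else 0))) •
            vvec K x y σ := by
      simp only [E, Finset.sum_smul]
      rw [Finset.sum_comm]
      refine Finset.sum_congr rfl fun T _ => ?_
      rw [Finset.sum_comm]
    rw [hav, hR]
    simp only [map_sum, map_smul]
    refine Finset.sum_congr rfl fun T _ => ?_
    refine Finset.sum_congr rfl fun s hs => ?_
    have hb := bOp_all (K := K) hx hg hh1 hh2 (s • fun j => mix x y T (τ j))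
      (fun j => hF1 s hs T (τ j))
    change funAlg K G (Fin n → X) b _ = _ at hb
    rw [hb, Finset.smul_sum, Finset.smul_sum]
    refine Finset.sum_congr rfl fun σ _ => ?_
    rw [smul_smul, smul_smul, mul_assoc]
  have htr := trace_eq_zero (funAlg K G (Fin n → X)) (mul_left_mem ha b) (vvec K x y)
    (vvec_linearIndependent hx hxy) E hE
  have hdiag : ∀ τ, E τ τ = a.coeff 1 := by
    intro τ
    simp only [E]
    rw [Finset.sum_eq_single ∅, Finset.sum_eq_single 1]
    · have : (fun j => mix x y ∅ (τ j)) = fun j => x (τ j) := by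
        funext j
        simp [mix]
      rw [this, one_smul, if_pos rfl]
      simp
    · intro s hs hs1
      rw [if_neg, mul_zero, mul_zero]
      intro hc
      obtain ⟨i, hi⟩ := hdist s hs hs1
      apply hi
      have := congrFun hc (τ.symm i)
      simp [mix] at this
      exact this
    · intro hc
      exact absurd h1S hc
    · intro T _ hT
      refine Finset.sum_eq_zero fun s hs => ?_
      rw [if_neg, mul_zero, mul_zero]
      intro hc
      obtain ⟨i, hi⟩ := Finset.nonempty_iff_ne_empty.mpr hT
      have := congrFun hc (τ.symm i)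
      simp only [Pi.smul_apply, Equiv.apply_symm_apply, mix, if_pos hi] at this
      exact hsy s hs _ _ this
    · intro hc
      exact absurd (Finset.mem_univ _) hc
  rw [Matrix.trace] at htr
  simp only [Matrix.diag_apply, hdiag, Finset.sum_const, Finset.card_univ, nsmul_eq_mul,
    mul_eq_zero, Nat.cast_eq_zero] at htr
  rcases htr with h | h
  · exact absurd h Fintype.card_ne_zero
  · exact ha1 h

end Main

end Pool.Agent.Hhelper64.GA
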